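import Mathlib

/-!
# Nonnegative bases of `L_1` with basis constant close to one: the algebraic part

At stage `t` the atoms are the numbers `k` with `t ≤ k < 4 t`; the atom `t` is split into the atoms `4 t + 1`, `4 t + 2`,
`4 t + 3`, and `4 t` is a new atom. The vectors `e k` are the normalised atoms. The basis vectors are
`e (4 t)`, `e (4 t + 1) + e t` and `e (4 t + 2) + c t • e (4 t + 1)`.
-/

set_option autoImplicit false

namespace Pool.Agent.J6H56.NB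
open Finset

/-- weights -/
noncomputable def lam (δ : ℝ) (k : ℕ) : ℝ := 1 + δ - δ / 2 ^ k

/-- the factors -/
noncomputable def cc (δ : ℝ) (t : ℕ) : ℝ := lam δ (t + 1) / lam δ t

/-- relative mass of the first part -/
noncomputable def pp (δ ρ : ℝ) (t : ℕ) : ℝ := ρ * (cc δ t - 1) / (cc δ t + 1)

/-- relative mass of the second part -/
noncomputable def qq (δ ρ : ℝ) (t : ℕ) : ℝ := ρ * 2 / (cc δ t + 1)

section par
variable {δ ρ : ℝ}

theorem lam_ge (hδ : 0 < δ) (k : ℕ) : 1 ≤ lam δ k := by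
  unfold lam
  have h : δ / 2 ^ k ≤ δ := div_le_self hδ.le (one_le_pow₀ (by norm_num))
  linarith

theorem lam_le (hδ : 0 < δ) (k : ℕ) : lam δ k ≤ 1 + δ := by
  unfold lam
  have h : 0 ≤ δ / 2 ^ k := by positivity
  linarith

theorem lam_lt (hδ : 0 < δ) (k : ℕ) : lam δ k < lam δ (k + 1) := by
  unfold lam
  have h : δ / 2 ^ (k + 1) = δ / 2 ^ k / 2 := by rw [pow_succ]; field_simp
  have h2 : 0 < δ / 2 ^ k := by positivity
  rw [h]
  linarith

theorem lam_mono (hδ : 0 < δ) {k l : ℕ} (h : k ≤ l) : lam δ k ≤ lam δ l :=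
  monotone_nat_of_le_succ (fun k => (lam_lt hδ k).le) h

theorem cc_gt (hδ : 0 < δ) (t : ℕ) : 1 < cc δ t := by
  unfold cc
  rw [one_lt_div (by linarith [lam_ge hδ t])]
  exact lam_lt hδ t

theorem cc_mul (hδ : 0 < δ) (t : ℕ) : lam δ t * cc δ t = lam δ (t + 1) := by
  unfold cc
  have := lam_ge hδ t
  field_simp

theorem cc_le (hδ : 0 < δ) (t : ℕ) : cc δ t ≤ lam δ (t + 1) := by
  have h1 := cc_mul hδ t
  have h2 := lam_ge hδ t
  have h3 := cc_gt hδ t
  nlinarith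

theorem pp_pos (hδ : 0 < δ) (hρ : 0 < ρ) (t : ℕ) : 0 < pp δ ρ t := by
  unfold pp
  have := cc_gt hδ t
  apply div_pos (mul_pos hρ (by linarith)) (by linarith)

theorem qq_pos (hδ : 0 < δ) (hρ : 0 < ρ) (t : ℕ) : 0 < qq δ ρ t := by
  unfold qq
  have := cc_gt hδ t
  apply div_pos (mul_pos hρ (by linarith)) (by linarith)

theorem pq_sum (hδ : 0 < δ) (t : ℕ) : pp δ ρ t + qq δ ρ t = ρ := by
  unfold pp qq
  have := cc_gt hδ t
  have h : cc δ t + 1 ≠ 0 := by linarith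
  field_simp
  ring

theorem pq_bal (hδ : 0 < δ) (t : ℕ) : cc δ t * qq δ ρ t - pp δ ρ t = ρ := by
  unfold pp qq
  have := cc_gt hδ t
  have h : cc δ t + 1 ≠ 0 := by linarith
  field_simp
  ring

end par

variable {Z : Type*} [NormedAddCommGroup Z] [NormedSpace ℝ Z]

/-- a system of normalised atoms -/
structure Sys (δ ρ : ℝ) (e : ℕ → Z) : Prop where
  one : ∀ k, ‖e k‖ = 1
  norm_eq : ∀ (t : ℕ) (x : ℕ → ℝ), ‖∑ k ∈ Ico t (4 * t), x k • e k‖ = ∑ k ∈ Ico t (4 * t), |x k|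
  split : ∀ t, e t = pp δ ρ t • e (4 * t + 1) + qq δ ρ t • e (4 * t + 2) + (1 - ρ) • e (4 * t + 3)

/-- the basis vectors -/
noncomputable def gg (δ : ℝ) (e : ℕ → Z) (n : ℕ) : Z :=
  if n % 3 = 0 then e (4 * (n / 3))
  else if n % 3 = 1 then e (4 * (n / 3) + 1) + e (n / 3)
  else e (4 * (n / 3) + 2) + cc δ (n / 3) • e (4 * (n / 3) + 1)

theorem gg0 (δ : ℝ) (e : ℕ → Z) (t : ℕ) : gg δ e (3 * t) = e (4 * t) := by
  unfold gg
  rw [if_pos (by omega), show 3 * t / 3 = t by omega]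

theorem gg1 (δ : ℝ) (e : ℕ → Z) (t : ℕ) : gg δ e (3 * t + 1) = e (4 * t + 1) + e t := by
  unfold gg
  rw [if_neg (by omega), if_pos (by omega), show (3 * t + 1) / 3 = t by omega]

theorem gg2 (δ : ℝ) (e : ℕ → Z) (t : ℕ) :
    gg δ e (3 * t + 2) = e (4 * t + 2) + cc δ t • e (4 * t + 1) := by
  unfold gg
  rw [if_neg (by omega), if_neg (by omega), show (3 * t + 2) / 3 = t by omega]

/-- coefficients after adding the new atom -/
noncomputable def yy (a : ℕ → ℝ) (t : ℕ) (x : ℕ → ℝ) (k : ℕ) : ℝ := if k = 4 * t then a (3 * t) else x k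

/-- coefficients with respect to the atoms of stage `t` -/
noncomputable def XX (δ ρ : ℝ) (a : ℕ → ℝ) : ℕ → ℕ → ℝ
  | 0, _ => 0
  | t + 1, k =>
    if k = 4 * t + 1 then (yy a t (XX δ ρ a t) t + a (3 * t + 1)) * pp δ ρ t + a (3 * t + 1) + cc δ t * a (3 * t + 2)
    else if k = 4 * t + 2 then (yy a t (XX δ ρ a t) t + a (3 * t + 1)) * qq δ ρ t + a (3 * t + 2)
    else if k = 4 * t + 3 then (yy a t (XX δ ρ a t) t + a (3 * t + 1)) * (1 - ρ)
    else yy a t (XX δ ρ a t) k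

/-- weighted norm at stage `t` -/
noncomputable def RR (δ ρ : ℝ) (a : ℕ → ℝ) (t : ℕ) : ℝ := ∑ k ∈ Ico t (4 * t), lam δ k * |XX δ ρ a t k|

section main
variable {δ ρ : ℝ} {e : ℕ → Z} (a : ℕ → ℝ)

theorem sum_y {E : Type*} [AddCommMonoid E] (t : ℕ) (F : ℕ → ℝ → E) (x : ℕ → ℝ) :
    ∑ k ∈ Ico t (4 * t + 1), F k (yy a t x k) = ∑ k ∈ Ico t (4 * t), F k (x k) + F (4 * t) (a (3 * t)) := by
  rw [Finset.sum_Ico_succ_top (by omega)]
  congr 1
  · apply Finset.sum_congr rfl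
    intro k hk
    rw [Finset.mem_Ico] at hk
    unfold yy
    rw [if_neg (by omega)]
  · unfold yy
    rw [if_pos rfl]

theorem sum_split {E : Type*} [AddCommMonoid E] (t : ℕ) (F : ℕ → ℝ → E) :
    ∑ k ∈ Ico (t + 1) (4 * (t + 1)), F k (XX δ ρ a (t + 1) k) =
      ∑ k ∈ Ico (t + 1) (4 * t + 1), F k (yy a t (XX δ ρ a t) k) +
      F (4 * t + 1) (XX δ ρ a (t + 1) (4 * t + 1)) + F (4 * t + 2) (XX δ ρ a (t + 1) (4 * t + 2)) +
      F (4 * t + 3) (XX δ ρ a (t + 1) (4 * t + 3)) := by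
  rw [show 4 * (t + 1) = 4 * t + 1 + 1 + 1 + 1 by ring, Finset.sum_Ico_succ_top (by omega),
    Finset.sum_Ico_succ_top (by omega), Finset.sum_Ico_succ_top (by omega)]
  congr 3
  apply Finset.sum_congr rfl
  intro k hk
  rw [Finset.mem_Ico] at hk
  congr 1
  change (if k = 4 * t + 1 then _ else if k = 4 * t + 2 then _ else if k = 4 * t + 3 then _ else _) = _
  rw [if_neg (by omega), if_neg (by omega), if_neg (by omega)]

theorem X1 (t : ℕ) : XX δ ρ a (t + 1) (4 * t + 1) =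
    (yy a t (XX δ ρ a t) t + a (3 * t + 1)) * pp δ ρ t + a (3 * t + 1) + cc δ t * a (3 * t + 2) := by
  change (if 4 * t + 1 = 4 * t + 1 then _ else _) = _
  rw [if_pos rfl]

theorem X2 (t : ℕ) : XX δ ρ a (t + 1) (4 * t + 2) =
    (yy a t (XX δ ρ a t) t + a (3 * t + 1)) * qq δ ρ t + a (3 * t + 2) := by
  change (if 4 * t + 2 = 4 * t + 1 then _ else if 4 * t + 2 = 4 * t + 2 then _ else _) = _
  rw [if_neg (by omega), if_pos rfl]

theorem X3 (t : ℕ) : XX δ ρ a (t + 1) (4 * t + 3) =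
    (yy a t (XX δ ρ a t) t + a (3 * t + 1)) * (1 - ρ) := by
  change (if 4 * t + 3 = 4 * t + 1 then _ else if 4 * t + 3 = 4 * t + 2 then _ else
    if 4 * t + 3 = 4 * t + 3 then _ else _) = _
  rw [if_neg (by omega), if_neg (by omega), if_pos rfl]

/-- partial sums -/
noncomputable def SS (δ : ℝ) (e : ℕ → Z) (a : ℕ → ℝ) (N : ℕ) : Z := ∑ n ∈ range N, a n • gg δ e n

theorem SS_succ (N : ℕ) : SS δ e a (N + 1) = SS δ e a N + a N • gg δ e N := Finset.sum_range_succ _ _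

theorem S0 (H : Sys δ ρ e) (t : ℕ) : SS δ e a (3 * t) = ∑ k ∈ Ico t (4 * t), XX δ ρ a t k • e k := by
  induction t with
  | zero => simp [SS]
  | succ t ih =>
    rw [show 3 * (t + 1) = 3 * t + 1 + 1 + 1 by ring, SS_succ, SS_succ, SS_succ, ih, gg0, gg1, gg2,
      sum_split a t (fun k x => x • e k), X1, X2, X3]
    have h1 := sum_y a t (fun k x => x • e k) (XX δ ρ a t)
    rw [Finset.sum_eq_sum_Ico_succ_bot (by omega)] at h1
    have h2 := H.split t
    set y := yy a t (XX δ ρ a t)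
    have h3 : ∑ k ∈ Ico t (4 * t), XX δ ρ a t k • e k + a (3 * t) • e (4 * t) =
      y t • e t + ∑ k ∈ Ico (t + 1) (4 * t + 1), y k • e k := h1.symm
    rw [h3]
    have h4 : (y t + a (3 * t + 1)) • e t = (y t + a (3 * t + 1)) • (pp δ ρ t • e (4 * t + 1) +
      qq δ ρ t • e (4 * t + 2) + (1 - ρ) • e (4 * t + 3)) := by rw [← h2]
    have h5 : y t • e t + ∑ k ∈ Ico (t + 1) (4 * t + 1), y k • e k +
        a (3 * t + 1) • (e (4 * t + 1) + e t) + a (3 * t + 1 + 1) • (e (4 * t + 2) + cc δ t • e (4 * t + 1)) =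
        (y t + a (3 * t + 1)) • e t + ∑ k ∈ Ico (t + 1) (4 * t + 1), y k • e k +
        a (3 * t + 1) • e (4 * t + 1) + a (3 * t + 1 + 1) • (e (4 * t + 2) + cc δ t • e (4 * t + 1)) := by
      module
    rw [h5, h4]
    module

/-- the value at the split atom -/
theorem Y_eq (hδ : 0 < δ) (t : ℕ) : yy a t (XX δ ρ a t) t =
    -XX δ ρ a (t + 1) (4 * t + 1) + cc δ t * XX δ ρ a (t + 1) (4 * t + 2) +
      XX δ ρ a (t + 1) (4 * t + 3) := by
  rw [X1, X2, X3]
  have h := pq_bal (ρ := ρ) hδ t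
  linear_combination (-(yy a t (XX δ ρ a t) t + a (3 * t + 1))) * h

theorem lamY (hδ : 0 < δ) (t : ℕ) : lam δ t * |yy a t (XX δ ρ a t) t| ≤
    lam δ (4 * t + 1) * |XX δ ρ a (t + 1) (4 * t + 1)| + lam δ (4 * t + 2) * |XX δ ρ a (t + 1) (4 * t + 2)| +
      lam δ (4 * t + 3) * |XX δ ρ a (t + 1) (4 * t + 3)| := by
  rw [Y_eq a hδ t]
  set W := XX δ ρ a (t + 1) (4 * t + 1)
  set U := XX δ ρ a (t + 1) (4 * t + 2)
  set G := XX δ ρ a (t + 1) (4 * t + 3)
  have h0 := lam_ge hδ t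
  have hc := cc_gt hδ t
  have h1 : |-W + cc δ t * U + G| ≤ |W| + cc δ t * |U| + |G| := by
    refine (abs_add_le _ _).trans ?_
    refine add_le_add ((abs_add_le _ _).trans ?_) le_rfl
    rw [abs_neg, abs_mul, abs_of_pos (by linarith : 0 < cc δ t)]
  have h2 : lam δ t * (|W| + cc δ t * |U| + |G|) = lam δ t * |W| + lam δ (t + 1) * |U| + lam δ t * |G| := by
    rw [← cc_mul hδ t]; ring
  have h3 : lam δ t * |W| ≤ lam δ (4 * t + 1) * |W| :=
    mul_le_mul_of_nonneg_right (lam_mono hδ (by omega)) (abs_nonneg _)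
  have h4 : lam δ (t + 1) * |U| ≤ lam δ (4 * t + 2) * |U| :=
    mul_le_mul_of_nonneg_right (lam_mono hδ (by omega)) (abs_nonneg _)
  have h5 : lam δ t * |G| ≤ lam δ (4 * t + 3) * |G| :=
    mul_le_mul_of_nonneg_right (lam_mono hδ (by omega)) (abs_nonneg _)
  have h6 := mul_le_mul_of_nonneg_left h1 (by linarith : 0 ≤ lam δ t)
  linarith

theorem R_succ (t : ℕ) : RR δ ρ a (t + 1) =
    ∑ k ∈ Ico (t + 1) (4 * t + 1), lam δ k * |yy a t (XX δ ρ a t) k| +
      lam δ (4 * t + 1) * |XX δ ρ a (t + 1) (4 * t + 1)| + lam δ (4 * t + 2) * |XX δ ρ a (t + 1) (4 * t + 2)| +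
      lam δ (4 * t + 3) * |XX δ ρ a (t + 1) (4 * t + 3)| :=
  sum_split a t (fun k x => lam δ k * |x|)

/-- the norm after adding the new atom -/
theorem Ry_le (hδ : 0 < δ) (t : ℕ) :
    ∑ k ∈ Ico t (4 * t + 1), lam δ k * |yy a t (XX δ ρ a t) k| ≤ RR δ ρ a (t + 1) := by
  rw [R_succ, Finset.sum_eq_sum_Ico_succ_bot (by omega)]
  have := lamY (ρ := ρ) a hδ t
  linarith

theorem R_mono1 (hδ : 0 < δ) (t : ℕ) : RR δ ρ a t ≤ RR δ ρ a (t + 1) := by
  refine le_trans ?_ (Ry_le a hδ t)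
  rw [sum_y a t (fun k x => lam δ k * |x|)]
  have := lam_ge hδ (4 * t)
  have h : 0 ≤ lam δ (4 * t) * |a (3 * t)| := mul_nonneg (by linarith) (abs_nonneg _)
  unfold RR
  linarith

theorem R_mono (hδ : 0 < δ) {t T : ℕ} (h : t ≤ T) : RR δ ρ a t ≤ RR δ ρ a T :=
  monotone_nat_of_le_succ (fun t => R_mono1 a hδ t) h

theorem R_nonneg (hδ : 0 < δ) (t : ℕ) : 0 ≤ RR δ ρ a t :=
  Finset.sum_nonneg fun k _ => mul_nonneg (by linarith [lam_ge hδ k]) (abs_nonneg _)

theorem N0 (H : Sys δ ρ e) (hδ : 0 < δ) (t : ℕ) : ‖SS δ e a (3 * t)‖ ≤ RR δ ρ a t := by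
  rw [S0 a H, H.norm_eq]
  refine Finset.sum_le_sum fun k _ => ?_
  exact le_mul_of_one_le_left (abs_nonneg _) (lam_ge hδ k)

theorem N0' (H : Sys δ ρ e) (hδ : 0 < δ) (t : ℕ) : RR δ ρ a t ≤ (1 + δ) * ‖SS δ e a (3 * t)‖ := by
  rw [S0 a H, H.norm_eq, Finset.mul_sum]
  refine Finset.sum_le_sum fun k _ => ?_
  exact mul_le_mul_of_nonneg_right (lam_le hδ k) (abs_nonneg _)

theorem S1 (H : Sys δ ρ e) (t : ℕ) : SS δ e a (3 * t + 1) =
    ∑ k ∈ Ico t (4 * t + 1), yy a t (XX δ ρ a t) k • e k := by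
  rw [SS_succ, S0 a H, gg0, sum_y a t (fun k x => x • e k)]

theorem norm_sum_le' (H : Sys δ ρ e) (hδ : 0 < δ) (s : Finset ℕ) (x : ℕ → ℝ) :
    ‖∑ k ∈ s, x k • e k‖ ≤ ∑ k ∈ s, lam δ k * |x k| := by
  refine (norm_sum_le _ _).trans (Finset.sum_le_sum fun k _ => ?_)
  rw [norm_smul, H.one, mul_one, Real.norm_eq_abs]
  exact le_mul_of_one_le_left (abs_nonneg _) (lam_ge hδ k)

theorem N1 (H : Sys δ ρ e) (hδ : 0 < δ) (t : ℕ) : ‖SS δ e a (3 * t + 1)‖ ≤ RR δ ρ a (t + 1) := by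
  rw [S1 a H]
  exact (norm_sum_le' H hδ _ _).trans (Ry_le a hδ t)

theorem N2 (H : Sys δ ρ e) (hδ : 0 < δ) (hρ : 0 < ρ) (hρ1 : ρ < 1) (t : ℕ) :
    ‖SS δ e a (3 * t + 2)‖ ≤ (1 + ρ) / (1 - ρ) * RR δ ρ a (t + 1) := by
  rw [show 3 * t + 2 = 3 * t + 1 + 1 by ring, SS_succ, S1 a H, gg1,
    Finset.sum_eq_sum_Ico_succ_bot (by omega), R_succ]
  set y := yy a t (XX δ ρ a t) with hy
  set W := XX δ ρ a (t + 1) (4 * t + 1) with hW
  set U := XX δ ρ a (t + 1) (4 * t + 2) with hU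
  set G := XX δ ρ a (t + 1) (4 * t + 3) with hG
  set α := a (3 * t + 1) with hα
  set Sg := ∑ k ∈ Ico (t + 1) (4 * t + 1), y k • e k
  set T := ∑ k ∈ Ico (t + 1) (4 * t + 1), lam δ k * |y k| with hT
  have hs : 0 < 1 - ρ := by linarith
  have hκ : 1 ≤ (1 + ρ) / (1 - ρ) := by rw [le_div_iff₀ hs]; linarith
  have hY : y t = -W + cc δ t * U + G := Y_eq a hδ t
  have hG' : G = (y t + α) * (1 - ρ) := X3 a t
  have h1 : y t • e t + Sg + α • (e (4 * t + 1) + e t) = Sg + ((y t + α) • e t + α • e (4 * t + 1)) := by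
    module
  rw [h1]
  have h2 : ‖Sg‖ ≤ T := norm_sum_le' H hδ _ _
  have h3 : ‖(y t + α) • e t + α • e (4 * t + 1)‖ ≤ |y t + α| + |α| := by
    refine (norm_add_le _ _).trans ?_
    rw [norm_smul, norm_smul, H.one, H.one, mul_one, mul_one, Real.norm_eq_abs, Real.norm_eq_abs]
  have e1 : y t + α = G / (1 - ρ) := by rw [hG']; field_simp
  have e2 : α = G * (ρ / (1 - ρ)) + W - cc δ t * U := by
    have : α = G / (1 - ρ) - y t := by linarith
    rw [this, hY]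
    field_simp
    ring
  have hc := cc_gt hδ t
  have h4 : |y t + α| = |G| / (1 - ρ) := by rw [e1, abs_div, abs_of_pos hs]
  have h5 : |α| ≤ |G| * (ρ / (1 - ρ)) + |W| + cc δ t * |U| := by
    rw [e2]
    refine (abs_sub _ _).trans ?_
    rw [abs_mul (cc δ t), abs_of_pos (by linarith : 0 < cc δ t)]
    refine add_le_add ((abs_add_le _ _).trans ?_) le_rfl
    rw [abs_mul, abs_of_pos (by positivity : 0 < ρ / (1 - ρ))]
  have h6 : |G| / (1 - ρ) + |G| * (ρ / (1 - ρ)) = (1 + ρ) / (1 - ρ) * |G| := by field_simp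
  have hT0 : 0 ≤ T := Finset.sum_nonneg fun k _ => mul_nonneg (by linarith [lam_ge hδ k]) (abs_nonneg _)
  have l1 : |W| ≤ (1 + ρ) / (1 - ρ) * (lam δ (4 * t + 1) * |W|) := by
    have := lam_ge hδ (4 * t + 1)
    have h := mul_le_mul hκ this (by norm_num) (by linarith)
    calc |W| = 1 * 1 * |W| := by ring
      _ ≤ ((1 + ρ) / (1 - ρ) * lam δ (4 * t + 1)) * |W| := mul_le_mul_of_nonneg_right h (abs_nonneg _)
      _ = _ := by ring
  have l2 : cc δ t * |U| ≤ (1 + ρ) / (1 - ρ) * (lam δ (4 * t + 2) * |U|) := by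
    have h7 : cc δ t ≤ lam δ (4 * t + 2) := (cc_le hδ t).trans (lam_mono hδ (by omega))
    have h := mul_le_mul hκ h7 (by linarith) (by linarith)
    calc cc δ t * |U| = 1 * cc δ t * |U| := by ring
      _ ≤ ((1 + ρ) / (1 - ρ) * lam δ (4 * t + 2)) * |U| := mul_le_mul_of_nonneg_right h (abs_nonneg _)
      _ = _ := by ring
  have l3 : (1 + ρ) / (1 - ρ) * |G| ≤ (1 + ρ) / (1 - ρ) * (lam δ (4 * t + 3) * |G|) :=
    mul_le_mul_of_nonneg_left (le_mul_of_one_le_left (abs_nonneg _) (lam_ge hδ _)) (by linarith)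
  have l4 : T ≤ (1 + ρ) / (1 - ρ) * T := le_mul_of_one_le_left hT0 hκ
  have h8 := norm_add_le Sg ((y t + α) • e t + α • e (4 * t + 1))
  calc ‖Sg + ((y t + α) • e t + α • e (4 * t + 1))‖ ≤ T + (|y t + α| + |α|) := by linarith
    _ ≤ T + (1 + ρ) / (1 - ρ) * |G| + |W| + cc δ t * |U| := by rw [h4, ← h6]; linarith
    _ ≤ (1 + ρ) / (1 - ρ) * (T + lam δ (4 * t + 1) * |W| + lam δ (4 * t + 2) * |U| +
        lam δ (4 * t + 3) * |G|) := by
      rw [mul_add, mul_add, mul_add]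
      linarith

/-- partial sums at complete stages -/
theorem bound1 (H : Sys δ ρ e) (hδ : 0 < δ) (hρ : 0 < ρ) (hρ1 : ρ < 1) (m T : ℕ) (h : m ≤ 3 * T) :
    ‖SS δ e a m‖ ≤ (1 + ρ) / (1 - ρ) * (1 + δ) * ‖SS δ e a (3 * T)‖ := by
  have hκ : 1 ≤ (1 + ρ) / (1 - ρ) := by rw [le_div_iff₀ (by linarith)]; linarith
  have h1 : ‖SS δ e a m‖ ≤ (1 + ρ) / (1 - ρ) * RR δ ρ a T := by
    obtain ⟨t, i, rfl, hi⟩ : ∃ t i, m = 3 * t + i ∧ i < 3 := ⟨m / 3, m % 3, by omega, by omega⟩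
    have hle : ∀ s, s ≤ T → RR δ ρ a s ≤ (1 + ρ) / (1 - ρ) * RR δ ρ a T := fun s hs =>
      (R_mono a hδ hs).trans (le_mul_of_one_le_left (R_nonneg a hδ T) hκ)
    interval_cases i
    · exact (N0 a H hδ t).trans (hle t (by omega))
    · exact (N1 a H hδ t).trans (hle (t + 1) (by omega))
    · exact (N2 a H hδ hρ hρ1 t).trans
        (mul_le_mul_of_nonneg_left (R_mono a hδ (by omega)) (by linarith))
  refine h1.trans ?_
  rw [mul_assoc]
  exact mul_le_mul_of_nonneg_left (N0' a H hδ T) (by linarith)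

/-- the inequality for partial sums -/
theorem bound (H : Sys δ ρ e) (hδ : 0 < δ) (hρ : 0 < ρ) (hρ1 : ρ < 1) (m N : ℕ) (h : m ≤ N) :
    ‖∑ n ∈ range m, a n • gg δ e n‖ ≤
      (1 + ρ) / (1 - ρ) * (1 + δ) * ‖∑ n ∈ range N, a n • gg δ e n‖ := by
  have h1 := bound1 (fun n => if n < N then a n else 0) H hδ hρ hρ1 m N (by omega)
  have h2 : SS δ e (fun n => if n < N then a n else 0) m = ∑ n ∈ range m, a n • gg δ e n := by
    refine Finset.sum_congr rfl fun n hn => ?_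
    rw [Finset.mem_range] at hn
    simp only [if_pos (show n < N by omega)]
  have h3 : SS δ e (fun n => if n < N then a n else 0) (3 * N) = ∑ n ∈ range N, a n • gg δ e n := by
    unfold SS
    rw [← Finset.sum_subset (Finset.range_subset_range.2 (by omega : N ≤ 3 * N))]
    · refine Finset.sum_congr rfl fun n hn => ?_
      rw [Finset.mem_range] at hn
      simp only [if_pos hn]
    · intro n _ hn
      rw [Finset.mem_range] at hn
      simp only [if_neg hn, zero_smul]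
  rw [h2, h3] at h1
  exact h1

/-- the atoms are in the span of the basis vectors -/
theorem e_mem (H : Sys δ ρ e) (hρ1 : ρ < 1) (k : ℕ) : e k ∈ Submodule.span ℝ (Set.range (gg δ e)) := by
  induction k using Nat.strong_induction_on with
  | _ k ih =>
    have hg : ∀ n, gg δ e n ∈ Submodule.span ℝ (Set.range (gg δ e)) := fun n =>
      Submodule.subset_span ⟨n, rfl⟩
    have c1 : ∀ t, (∀ m, m < 4 * t + 1 → e m ∈ Submodule.span ℝ (Set.range (gg δ e))) →
        e (4 * t + 1) ∈ Submodule.span ℝ (Set.range (gg δ e)) := by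
      intro t h
      have h1 : e (4 * t + 1) = gg δ e (3 * t + 1) - e t := by rw [gg1]; abel
      rw [h1]
      exact Submodule.sub_mem _ (hg _) (h t (by omega))
    have c2 : ∀ t, (∀ m, m < 4 * t + 2 → e m ∈ Submodule.span ℝ (Set.range (gg δ e))) →
        e (4 * t + 2) ∈ Submodule.span ℝ (Set.range (gg δ e)) := by
      intro t h
      have h1 : e (4 * t + 2) = gg δ e (3 * t + 2) - cc δ t • e (4 * t + 1) := by rw [gg2]; abel
      rw [h1]
      exact Submodule.sub_mem _ (hg _) (Submodule.smul_mem _ _ (h _ (by omega)))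
    obtain ⟨t, i, rfl, hi⟩ : ∃ t i, k = 4 * t + i ∧ i < 4 := ⟨k / 4, k % 4, by omega, by omega⟩
    interval_cases i
    · have := hg (3 * t)
      rw [gg0] at this
      exact this
    · exact c1 t ih
    · exact c2 t ih
    · have h1 : e (4 * t + 3) = (1 - ρ)⁻¹ • (e t - pp δ ρ t • e (4 * t + 1) - qq δ ρ t • e (4 * t + 2)) := by
        have h2 : e t - pp δ ρ t • e (4 * t + 1) - qq δ ρ t • e (4 * t + 2) = (1 - ρ) • e (4 * t + 3) := by
          nth_rewrite 1 [H.split t]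
          abel
        rw [h2, smul_smul, inv_mul_cancel₀ (by linarith), one_smul]
      rw [h1]
      exact Submodule.smul_mem _ _ (Submodule.sub_mem _ (Submodule.sub_mem _ (ih _ (by omega))
        (Submodule.smul_mem _ _ (ih _ (by omega)))) (Submodule.smul_mem _ _ (ih _ (by omega))))

end main

end Pool.Agent.J6H56.NB
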