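import Mathlib

/-!
# There is no monotone nonnegative Schauder basis of `L_1`
-/

set_option autoImplicit false

namespace Pool.Agent.J6H56.NB.NA
open Finset MeasureTheory Filter Topology
open scoped ENNReal

/-- the space -/
abbrev L1 : Type := Lp ℝ 1 (volume : Measure ℝ)

theorem nrm (x : L1) : ‖x‖ = ∫ a, |x a| := by
  rw [L1.norm_eq_integral_norm]
  simp only [Real.norm_eq_abs]

theorem intg (x : L1) : Integrable x volume := L1.integrable_coeFn x

/-- the integral -/
noncomputable def In (x : L1) : ℝ := ∫ a, x a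

theorem int_add (x y : L1) : In (x + y) = In x + In y := by
  unfold In
  rw [← integral_add (intg x) (intg y)]
  exact integral_congr_ae (Lp.coeFn_add x y)

theorem int_smul (c : ℝ) (x : L1) : In (c • x) = c * In x := by
  unfold In
  rw [← integral_const_mul]
  refine integral_congr_ae ?_
  filter_upwards [Lp.coeFn_smul c x] with a ha
  rw [ha, Pi.smul_apply, smul_eq_mul]

theorem nn (x : L1) : 0 ≤ x ↔ ∀ᵐ a, 0 ≤ x a := (Lp.coeFn_nonneg x).symm

theorem le_iff (x y : L1) : x ≤ y ↔ ∀ᵐ a, x a ≤ y a := (Lp.coeFn_le x y).symm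

theorem nrm_nonneg {x : L1} (h : 0 ≤ x) : ‖x‖ = In x := by
  unfold In
  rw [nrm]
  refine integral_congr_ae ?_
  filter_upwards [(nn x).1 h] with a ha
  exact abs_of_nonneg ha

theorem step1 (f0 B : L1) (h0 : 0 ≤ f0) (h : ‖f0 + B‖ + ‖f0 - B‖ ≤ 2 * ‖f0‖) :
    ∀ᵐ a, |B a| ≤ f0 a := by
  have i1 : Integrable (fun a => |(f0 + B : L1) a|) volume := (intg _).abs
  have i2 : Integrable (fun a => |(f0 - B : L1) a|) volume := (intg _).abs
  have i3 : Integrable (fun a => 2 * |f0 a|) volume := (intg f0).abs.const_mul 2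
  have h1 : ∫ a, (|(f0 + B : L1) a| + |(f0 - B : L1) a| - 2 * |f0 a|) ≤ 0 := by
    have e1 := integral_sub (i1.add i2) i3
    have e2 := integral_add i1 i2
    have e3 : ∫ a, 2 * |f0 a| = 2 * ∫ a, |f0 a| := integral_const_mul _ _
    simp only [Pi.add_apply] at e1
    rw [e1, e2, e3, ← nrm, ← nrm, ← nrm]
    linarith
  have h2 : 0 ≤ᵐ[volume] fun a => |(f0 + B : L1) a| + |(f0 - B : L1) a| - 2 * |f0 a| := by
    filter_upwards [Lp.coeFn_add f0 B, Lp.coeFn_sub f0 B] with a h3 h4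
    rw [h3, h4]
    simp only [Pi.add_apply, Pi.sub_apply, Pi.zero_apply]
    have : |2 * f0 a| ≤ |f0 a + B a| + |f0 a - B a| := by
      have := abs_add_le (f0 a + B a) (f0 a - B a)
      have e : f0 a + B a + (f0 a - B a) = 2 * f0 a := by ring
      rwa [e] at this
    rw [abs_mul, abs_two] at this
    linarith
  have h5 := (integral_eq_zero_iff_of_nonneg_ae h2 ((i1.add i2).sub i3)).1
    (le_antisymm h1 (integral_nonneg_of_ae h2))
  filter_upwards [h5, Lp.coeFn_add f0 B, Lp.coeFn_sub f0 B, (nn f0).1 h0] with a h6 h3 h4 h7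
  rw [h3, h4] at h6
  simp only [Pi.add_apply, Pi.sub_apply, Pi.zero_apply] at h6
  rw [abs_of_nonneg h7] at h6
  rw [abs_le]
  constructor
  · by_contra hc
    push Not at hc
    rw [abs_of_neg (by linarith : f0 a + B a < 0), abs_of_pos (by linarith : 0 < f0 a - B a)] at h6
    linarith
  · by_contra hc
    push Not at hc
    rw [abs_of_pos (by linarith : 0 < f0 a + B a), abs_of_neg (by linarith : f0 a - B a < 0)] at h6
    linarith

theorem step2 (f0 B g : L1) (hB : ∀ᵐ a, |B a| ≤ f0 a) (hg : 0 ≤ g) (hgf : g ≤ f0)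
    (h1 : ‖f0 - B‖ ≤ ‖f0 - g‖) (h2 : ‖B‖ ≤ ‖g‖) : In B = In g := by
  have e1 : ‖f0 - B‖ = In f0 - In B := by
    unfold In
    rw [nrm, ← integral_sub (intg _) (intg _)]
    refine integral_congr_ae ?_
    filter_upwards [Lp.coeFn_sub f0 B, hB] with a h3 h4
    rw [h3, Pi.sub_apply, abs_of_nonneg]
    linarith [le_abs_self (B a)]
  have e2 : ‖f0 - g‖ = In f0 - In g := by
    unfold In
    rw [nrm, ← integral_sub (intg _) (intg _)]
    refine integral_congr_ae ?_
    filter_upwards [Lp.coeFn_sub f0 g, (le_iff g f0).1 hgf] with a h3 h4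
    rw [h3, Pi.sub_apply, abs_of_nonneg]
    linarith
  have e3 : In B ≤ ‖B‖ := by
    unfold In
    rw [nrm]
    exact integral_mono (intg _) (intg _).abs fun a => le_abs_self _
  rw [nrm_nonneg hg] at h2
  rw [e1, e2] at h1
  linarith

/-- the set where `f0` is positive -/
def PosSet (f0 : L1) : Set ℝ := {a | 0 < f0 a}

theorem posSet_meas (f0 : L1) : MeasurableSet (PosSet f0) :=
  measurableSet_lt measurable_const (Lp.stronglyMeasurable f0).measurable

/-- restriction to the set where `f0` is positive -/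
noncomputable def R (f0 x : L1) : L1 :=
  MemLp.toLp _ ((Lp.memLp x).indicator (posSet_meas f0))

theorem R_coe (f0 x : L1) : (R f0 x : ℝ → ℝ) =ᵐ[volume] fun a => if 0 < f0 a then x a else 0 := by
  have h1 : (R f0 x : ℝ → ℝ) =ᵐ[volume] (PosSet f0).indicator (x : ℝ → ℝ) := MemLp.coeFn_toLp _
  refine h1.trans (Filter.Eventually.of_forall fun a => ?_)
  change (PosSet f0).indicator (x : ℝ → ℝ) a = if 0 < f0 a then x a else 0
  by_cases h : 0 < f0 a
  · rw [if_pos h, Set.indicator_of_mem (show a ∈ PosSet f0 from h)]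
  · rw [if_neg h, Set.indicator_of_notMem (show a ∉ PosSet f0 from h)]

theorem R_add (f0 x y : L1) : R f0 (x + y) = R f0 x + R f0 y := by
  apply Lp.ext
  filter_upwards [R_coe f0 (x + y), R_coe f0 x, R_coe f0 y, Lp.coeFn_add x y,
    Lp.coeFn_add (R f0 x) (R f0 y)] with a h1 h2 h3 h4 h5
  rw [h1, h5, Pi.add_apply, h2, h3, h4]
  split_ifs <;> simp

theorem R_smul (f0 : L1) (c : ℝ) (x : L1) : R f0 (c • x) = c • R f0 x := by
  apply Lp.ext
  filter_upwards [R_coe f0 (c • x), R_coe f0 x, Lp.coeFn_smul c x, Lp.coeFn_smul c (R f0 x)]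
    with a h1 h2 h3 h4
  rw [h1, h4, Pi.smul_apply, h2, h3]
  split_ifs <;> simp

theorem R_norm (f0 x : L1) : ‖R f0 x‖ ≤ ‖x‖ := by
  refine Lp.norm_le_norm_of_ae_le ?_
  filter_upwards [R_coe f0 x] with a ha
  rw [ha]
  split_ifs
  · exact le_rfl
  · rw [norm_zero]; exact norm_nonneg _

/-- restriction as a continuous linear map -/
noncomputable def RL (f0 : L1) : L1 →L[ℝ] L1 :=
  LinearMap.mkContinuous
    { toFun := R f0
      map_add' := R_add f0
      map_smul' := R_smul f0 } 1 (fun x => by rw [one_mul]; exact R_norm f0 x)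

theorem RL_apply (f0 x : L1) : RL f0 x = R f0 x := rfl

theorem R_idem (f0 x : L1) : R f0 (R f0 x) = R f0 x := by
  apply Lp.ext
  filter_upwards [R_coe f0 (R f0 x), R_coe f0 x] with a h1 h2
  rw [h1, h2]
  split_ifs <;> rfl

theorem R_self {f0 : L1} (h0 : 0 ≤ f0) : R f0 f0 = f0 := by
  apply Lp.ext
  filter_upwards [R_coe f0 f0, (nn f0).1 h0] with a h1 h2
  rw [h1]
  split_ifs with h
  · rfl
  · exact (le_antisymm (not_lt.1 h) h2).symm

theorem R_nonneg (f0 : L1) {x : L1} (h : 0 ≤ x) : 0 ≤ R f0 x := by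
  rw [nn] at h ⊢
  filter_upwards [R_coe f0 x, h] with a h1 h2
  rw [h1]
  split_ifs
  · exact h2
  · exact le_rfl

theorem R_of_dom {f0 x : L1} (h : ∀ᵐ a, |x a| ≤ f0 a) : R f0 x = x := by
  apply Lp.ext
  filter_upwards [R_coe f0 x, h] with a h1 h2
  rw [h1]
  split_ifs with h3
  · rfl
  · have : |x a| ≤ 0 := h2.trans (not_lt.1 h3)
    exact (abs_nonpos_iff.1 this).symm

/-- norms of disjoint parts add up -/
theorem norm_parts (f0 x : L1) : ‖x‖ = ‖R f0 x‖ + ‖x - R f0 x‖ := by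
  rw [nrm, nrm, nrm, ← integral_add (intg _).abs (intg _).abs]
  refine integral_congr_ae ?_
  filter_upwards [R_coe f0 x, Lp.coeFn_sub x (R f0 x)] with a h1 h2
  rw [h2, Pi.sub_apply, h1]
  split_ifs <;> simp

section proj
variable (P : L1 →L[ℝ] L1) (hP : ∀ x, ‖P x‖ ≤ ‖x‖) (f0 : L1) (h0 : 0 ≤ f0) (hf : P f0 = f0)
include hP h0 hf

theorem key1 (g : L1) (hg : 0 ≤ g) (hgf : g ≤ f0) : R f0 (P g) = P g ∧ In (P g) = In g := by
  have h1 : ‖f0 + g‖ + ‖f0 - g‖ = 2 * ‖f0‖ := by
    have e1 : ‖f0 + g‖ = In f0 + In g := by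
      rw [nrm_nonneg (add_nonneg h0 hg), int_add]
    have e2 : ‖f0 - g‖ = In f0 - In g := by
      rw [nrm_nonneg (sub_nonneg.2 hgf), sub_eq_add_neg, ← neg_one_smul ℝ g, int_add, int_smul]
      ring
    rw [e1, e2, nrm_nonneg h0]
    ring
  have h2 : ‖f0 + P g‖ + ‖f0 - P g‖ ≤ 2 * ‖f0‖ := by
    rw [← h1]
    have e1 : f0 + P g = P (f0 + g) := by rw [map_add, hf]
    have e2 : f0 - P g = P (f0 - g) := by rw [map_sub, hf]
    rw [e1, e2]
    exact add_le_add (hP _) (hP _)
  have h3 := step1 f0 (P g) h0 h2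
  refine ⟨R_of_dom h3, step2 f0 (P g) g h3 hg hgf ?_ (hP g)⟩
  have e2 : f0 - P g = P (f0 - g) := by rw [map_sub, hf]
  rw [e2]
  exact hP _

theorem key2 (h : L1) (hh : 0 ≤ h) (hA : R f0 h = h) : R f0 (P h) = P h ∧ In (P h) = In h := by
  -- truncations
  set u : ℕ → L1 := fun n => h ⊓ ((n + 1 : ℕ) : ℝ) • f0 with hu
  have hu1 : ∀ n, R f0 (P (u n)) = P (u n) ∧ In (P (u n)) = In (u n) := by
    intro n
    have hn : (0 : ℝ) < ((n + 1 : ℕ) : ℝ) := by positivity
    have hsf : 0 ≤ ((n + 1 : ℕ) : ℝ) • f0 := by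
      rw [nn] at h0 ⊢
      filter_upwards [Lp.coeFn_smul ((n + 1 : ℕ) : ℝ) f0, h0] with a h1 h2
      rw [h1, Pi.smul_apply, smul_eq_mul]
      positivity
    have hu0 : 0 ≤ u n := le_inf hh hsf
    have hule : u n ≤ ((n + 1 : ℕ) : ℝ) • f0 := inf_le_right
    have hg0 : 0 ≤ (((n + 1 : ℕ) : ℝ))⁻¹ • u n := by
      rw [nn] at hu0 ⊢
      filter_upwards [Lp.coeFn_smul (((n + 1 : ℕ) : ℝ))⁻¹ (u n), hu0] with a h1 h2
      rw [h1, Pi.smul_apply, smul_eq_mul]
      exact mul_nonneg (inv_nonneg.2 hn.le) h2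
    have hg1 : (((n + 1 : ℕ) : ℝ))⁻¹ • u n ≤ f0 := by
      rw [le_iff] at hule ⊢
      filter_upwards [Lp.coeFn_smul (((n + 1 : ℕ) : ℝ))⁻¹ (u n), hule, Lp.coeFn_smul ((n + 1 : ℕ) : ℝ) f0]
        with a h1 h2 h3
      rw [h3, Pi.smul_apply, smul_eq_mul] at h2
      rw [h1, Pi.smul_apply, smul_eq_mul, inv_mul_le_iff₀ hn]
      exact h2
    obtain ⟨k1, k2⟩ := key1 P hP f0 h0 hf _ hg0 hg1
    rw [map_smul, R_smul] at k1
    rw [map_smul, int_smul, int_smul] at k2
    have hn' : (((n + 1 : ℕ) : ℝ))⁻¹ ≠ 0 := inv_ne_zero hn.ne'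
    exact ⟨smul_right_injective _ hn' k1, mul_left_cancel₀ hn' k2⟩
  have hlim : Tendsto u atTop (𝓝 h) := by
    rw [tendsto_iff_norm_sub_tendsto_zero]
    have e1 : ∀ n, ‖u n - h‖ = ∫ a, |min (h a) (((n + 1 : ℕ) : ℝ) * f0 a) - h a| := by
      intro n
      rw [nrm]
      refine integral_congr_ae ?_
      filter_upwards [Lp.coeFn_sub (u n) h, Lp.coeFn_inf h (((n + 1 : ℕ) : ℝ) • f0),
        Lp.coeFn_smul ((n + 1 : ℕ) : ℝ) f0] with a h1 h2 h3
      rw [h1, Pi.sub_apply]
      have e3 : u n a = min (h a) (((n + 1 : ℕ) : ℝ) * f0 a) := by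
        rw [hu]
        change (h ⊓ ((n + 1 : ℕ) : ℝ) • f0 : L1) a = _
        rw [h2, Pi.inf_apply, h3, Pi.smul_apply, smul_eq_mul]
      rw [e3]
    simp_rw [e1]
    have e2 : (0 : ℝ) = ∫ _ : ℝ, (0 : ℝ) := by simp
    rw [e2]
    refine tendsto_integral_of_dominated_convergence (fun a => |h a|) ?_ (intg h).abs ?_ ?_
    · intro n
      exact ((((intg h).inf ((intg f0).const_mul _)).sub (intg h)).abs).aestronglyMeasurable
    · intro n
      filter_upwards [(nn h).1 hh, (nn f0).1 h0] with a h1 h2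
      rw [Real.norm_eq_abs, abs_abs, abs_sub_comm, abs_of_nonneg (by linarith [min_le_left (h a) (((n + 1 : ℕ) : ℝ) * f0 a)]),
        abs_of_nonneg h1]
      have : 0 ≤ min (h a) (((n + 1 : ℕ) : ℝ) * f0 a) := le_min h1 (by positivity)
      linarith
    · have hA' := R_coe f0 h
      rw [hA] at hA'
      filter_upwards [hA', (nn f0).1 h0] with a h1 h2
      by_cases h3 : 0 < f0 a
      · obtain ⟨N, hN⟩ := exists_nat_gt (h a / f0 a)
        refine tendsto_const_nhds.congr' ?_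
        filter_upwards [eventually_ge_atTop N] with n hn
        have h4 : h a ≤ ((n + 1 : ℕ) : ℝ) * f0 a := by
          rw [div_lt_iff₀ h3] at hN
          have h5 : (N : ℝ) ≤ ((n + 1 : ℕ) : ℝ) := by exact_mod_cast (by omega : N ≤ n + 1)
          have h6 := mul_le_mul_of_nonneg_right h5 h3.le
          linarith
        rw [min_eq_left h4, sub_self, abs_zero]
      · rw [if_neg h3] at h1
        have h4 : f0 a = 0 := le_antisymm (not_lt.1 h3) h2
        rw [h1, h4]
        simp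
  have hlimP : Tendsto (fun n => P (u n)) atTop (𝓝 (P h)) := (P.continuous.tendsto h).comp hlim
  constructor
  · have h1 : Tendsto (fun n => R f0 (P (u n))) atTop (𝓝 (R f0 (P h))) :=
      ((RL f0).continuous.tendsto _).comp hlimP
    refine tendsto_nhds_unique h1 (hlimP.congr fun n => (hu1 n).1.symm)
  · have c1 : Tendsto (fun n => In (P (u n))) atTop (𝓝 (In (P h))) :=
      (continuous_integral.tendsto (P h)).comp hlimP
    have c2 : Tendsto (fun n => In (u n)) atTop (𝓝 (In h)) :=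
      (continuous_integral.tendsto h).comp hlim
    exact tendsto_nhds_unique c1 (c2.congr fun n => (hu1 n).2.symm)

end proj

/-- a function which is not a multiple of `f0` on the set where `f0` is positive -/
theorem exists_nonmult {f0 : L1} (h0 : 0 ≤ f0) (hne : f0 ≠ 0) : ∃ g : L1, ∀ c : ℝ, R f0 g ≠ c • f0 := by
  have hm : Integrable (fun a => Real.arctan a * f0 a) volume := by
    refine (intg f0).bdd_mul (c := 2) (Real.continuous_arctan.aestronglyMeasurable) ?_
    refine Filter.Eventually.of_forall fun a => ?_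
    rw [Real.norm_eq_abs, abs_le]
    have h1 := Real.arctan_lt_pi_div_two a
    have h2 := Real.neg_pi_div_two_lt_arctan a
    have h3 := Real.pi_lt_four
    constructor <;> linarith
  refine ⟨hm.toL1 _, fun c hc => ?_⟩
  have h1 : ∀ᵐ a, 0 < f0 a → Real.arctan a = c := by
    have h2 := R_coe f0 (hm.toL1 _)
    rw [hc] at h2
    filter_upwards [h2, Integrable.coeFn_toL1 hm, Lp.coeFn_smul c f0] with a h3 h4 h5 h6
    rw [if_pos h6, h4, h5, Pi.smul_apply, smul_eq_mul] at h3
    exact (mul_right_cancel₀ h6.ne' h3).symm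
  have h2 : ∀ᵐ a : ℝ, a ≠ Real.tan c := by
    simp [ae_iff]
  apply hne
  apply Lp.ext
  filter_upwards [h1, h2, (nn f0).1 h0, Lp.coeFn_zero ℝ 1 (volume : Measure ℝ)] with a h3 h4 h5 h6
  rw [h6, Pi.zero_apply]
  by_contra h7
  have h8 := h3 (lt_of_le_of_ne h5 (Ne.symm h7))
  apply h4
  rw [← h8, Real.tan_arctan]

section basis
variable (f : ℕ → L1) (hb : ∀ x : L1, ∃! a : ℕ → ℝ, Tendsto (fun N => ∑ n ∈ range N, a n • f n) atTop (𝓝 x))
include hb

/-- coefficients -/
noncomputable def cf (x : L1) : ℕ → ℝ := (hb x).choose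

theorem cf_spec (x : L1) : Tendsto (fun N => ∑ n ∈ range N, cf f hb x n • f n) atTop (𝓝 x) :=
  (hb x).choose_spec.1

theorem cf_unique (x : L1) (a : ℕ → ℝ) (h : Tendsto (fun N => ∑ n ∈ range N, a n • f n) atTop (𝓝 x)) :
    a = cf f hb x := (hb x).choose_spec.2 a h

theorem cf_add (x y : L1) : cf f hb (x + y) = fun n => cf f hb x n + cf f hb y n := by
  symm
  apply cf_unique
  have h := (cf_spec f hb x).add (cf_spec f hb y)
  refine h.congr fun N => ?_
  rw [← Finset.sum_add_distrib]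
  refine Finset.sum_congr rfl fun n _ => ?_
  rw [add_smul]

theorem cf_smul (c : ℝ) (x : L1) : cf f hb (c • x) = fun n => c * cf f hb x n := by
  symm
  apply cf_unique
  have h := (cf_spec f hb x).const_smul c
  refine h.congr fun N => ?_
  rw [Finset.smul_sum]
  refine Finset.sum_congr rfl fun n _ => ?_
  rw [mul_smul]

omit hb in
theorem sum_single (m N : ℕ) (h : m < N) : ∑ n ∈ range N, (if n = m then (1 : ℝ) else 0) • f n = f m := by
  simp only [ite_smul, one_smul, zero_smul, Finset.sum_ite_eq', mem_range]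
  rw [if_pos h]

theorem cf_self (m : ℕ) : cf f hb (f m) = fun n => if n = m then 1 else 0 := by
  symm
  apply cf_unique
  refine tendsto_const_nhds.congr' ?_
  filter_upwards [eventually_gt_atTop m] with N hN
  exact (sum_single f m N hN).symm

theorem ne_zero (m : ℕ) : f m ≠ 0 := by
  intro h
  have h1 := cf_self f hb m
  have h2 : (fun _ => (0 : ℝ)) = cf f hb (f m) := by
    apply cf_unique
    rw [h]
    simp
  rw [h1] at h2
  have := congrFun h2 m
  simp at this

variable (h1 : ∀ (x : L1) (a : ℕ → ℝ), Tendsto (fun N => ∑ n ∈ range N, a n • f n) atTop (𝓝 x) →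
  ∀ N, ‖∑ n ∈ range N, a n • f n‖ ≤ ‖x‖)
include h1

/-- partial sum projections -/
noncomputable def PP (N : ℕ) : L1 →L[ℝ] L1 :=
  LinearMap.mkContinuous
    { toFun := fun x => ∑ n ∈ range N, cf f hb x n • f n
      map_add' := fun x y => by
        rw [cf_add, ← Finset.sum_add_distrib]
        refine Finset.sum_congr rfl fun n _ => ?_
        rw [add_smul]
      map_smul' := fun c x => by
        rw [cf_smul, RingHom.id_apply, Finset.smul_sum]
        refine Finset.sum_congr rfl fun n _ => ?_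
        rw [mul_smul] } 1 (fun x => by
      rw [one_mul]
      exact h1 x _ (cf_spec f hb x) N)

theorem PP_apply (N : ℕ) (x : L1) : PP f hb h1 N x = ∑ n ∈ range N, cf f hb x n • f n := rfl

theorem PP_le (N : ℕ) (x : L1) : ‖PP f hb h1 N x‖ ≤ ‖x‖ := h1 x _ (cf_spec f hb x) N

theorem PP_self (N m : ℕ) (h : m < N) : PP f hb h1 N (f m) = f m := by
  rw [PP_apply, cf_self]
  exact sum_single f m N h

omit h1 in
theorem exists_n (hf : ∀ n, 0 ≤ f n) : ∃ n, ∀ c : ℝ, R (f 0) (f n) ≠ c • f 0 := by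
  by_contra hcon
  push Not at hcon
  obtain ⟨g, hg⟩ := exists_nonmult (hf 0) (ne_zero f hb 0)
  have hcl : IsClosed ((ℝ ∙ f 0 : Submodule ℝ L1) : Set L1) := Submodule.closed_of_finiteDimensional _
  have h2 : R (f 0) g ∈ (ℝ ∙ f 0 : Submodule ℝ L1) := by
    have h3 : Tendsto (fun N => RL (f 0) (∑ n ∈ range N, cf f hb g n • f n)) atTop (𝓝 (RL (f 0) g)) :=
      ((RL (f 0)).continuous.tendsto g).comp (cf_spec f hb g)
    refine hcl.mem_of_tendsto h3 (Filter.Eventually.of_forall fun N => ?_)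
    rw [map_sum]
    refine Submodule.sum_mem _ fun n _ => ?_
    rw [map_smul]
    obtain ⟨c, hc⟩ := hcon n
    rw [RL_apply, hc]
    exact Submodule.smul_mem _ _ (Submodule.smul_mem _ _ (Submodule.mem_span_singleton_self _))
  obtain ⟨c, hc⟩ := Submodule.mem_span_singleton.1 h2
  exact hg c hc.symm

/-- **There is no monotone nonnegative basis of `L_1`.** -/
theorem not_one (hf : ∀ n, 0 ≤ f n) : False := by
  classical
  have hex := exists_n f hb hf
  set n := Nat.find hex with hn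
  have hn1 : ∀ c : ℝ, R (f 0) (f n) ≠ c • f 0 := Nat.find_spec hex
  have hn2 : ∀ i, i < n → ∃ c : ℝ, R (f 0) (f i) = c • f 0 := by
    intro i hi
    have := Nat.find_min hex hi
    push Not at this
    exact this
  have hn0 : 0 < n := by
    rw [Nat.pos_iff_ne_zero]
    intro h
    apply hn1 1
    rw [h, R_self (hf 0), one_smul]
  set f0 := f 0 with hf0
  have h0 : 0 ≤ f0 := hf 0
  set p := R f0 (f n) with hp
  have hp0 : 0 ≤ p := R_nonneg f0 (hf n)
  have hRp : R f0 p = p := R_idem f0 (f n)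
  have hR0 : R f0 f0 = f0 := R_self h0
  -- the two projections
  have k1 := key2 (PP f hb h1 (n + 1)) (PP_le f hb h1 (n + 1)) f0 h0 (PP_self f hb h1 (n + 1) 0 (by omega)) p hp0 hRp
  have k2 := key2 (PP f hb h1 n) (PP_le f hb h1 n) f0 h0 (PP_self f hb h1 n 0 hn0) p hp0 hRp
  have e1 : PP f hb h1 (n + 1) p = p := by
    have a1 : PP f hb h1 (n + 1) (f n - p) = f n - PP f hb h1 (n + 1) p := by
      rw [map_sub, PP_self f hb h1 (n + 1) n (by omega)]
    have a2 := PP_le f hb h1 (n + 1) (f n - p)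
    rw [a1] at a2
    have a3 := norm_parts f0 (f n - PP f hb h1 (n + 1) p)
    have a4 : R f0 (f n - PP f hb h1 (n + 1) p) = p - PP f hb h1 (n + 1) p := by
      have : R f0 (f n - PP f hb h1 (n + 1) p) = R f0 (f n) - R f0 (PP f hb h1 (n + 1) p) :=
        map_sub (RL f0) _ _
      rw [this, k1.1]
    rw [a4] at a3
    have a5 : f n - PP f hb h1 (n + 1) p - (p - PP f hb h1 (n + 1) p) = f n - p := by abel
    rw [a5] at a3
    have a6 : ‖p - PP f hb h1 (n + 1) p‖ ≤ 0 := by linarith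
    exact (sub_eq_zero.1 (norm_le_zero_iff.1 a6)).symm
  have e2 : PP f hb h1 (n + 1) p = PP f hb h1 n p + cf f hb p n • f n := by
    rw [PP_apply, PP_apply, Finset.sum_range_succ]
  have e3 : ∃ τ : ℝ, PP f hb h1 n p = τ • f0 := by
    have b1 : R f0 (PP f hb h1 n p) ∈ (ℝ ∙ f0 : Submodule ℝ L1) := by
      change RL f0 (∑ i ∈ range n, cf f hb p i • f i) ∈ _
      rw [map_sum]
      refine Submodule.sum_mem _ fun i hi => ?_
      rw [map_smul]
      obtain ⟨c, hc⟩ := hn2 i (Finset.mem_range.1 hi)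
      rw [RL_apply, hc]
      exact Submodule.smul_mem _ _ (Submodule.smul_mem _ _ (Submodule.mem_span_singleton_self _))
    rw [k2.1] at b1
    obtain ⟨c, hc⟩ := Submodule.mem_span_singleton.1 b1
    exact ⟨c, hc.symm⟩
  obtain ⟨τ, hτ⟩ := e3
  set c := cf f hb p n with hc
  have e4 : p = τ • f0 + c • f n := by rw [← hτ, ← e2, e1]
  have e5 : p = τ • f0 + c • p := by
    have h : R f0 p = R f0 (τ • f0 + c • f n) := congrArg (R f0) e4
    rw [R_add, R_smul, R_smul, hRp, hR0] at h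
    exact h
  have e6 : (1 - c) • p = τ • f0 := by
    rw [sub_smul, one_smul, sub_eq_iff_eq_add]
    exact e5
  by_cases hc1 : c = 1
  · rw [hc1, sub_self, zero_smul] at e6
    have g1 : PP f hb h1 n p = 0 := by rw [hτ, ← e6]
    have g2 := k2.2
    rw [g1] at g2
    have g3 : In (0 : L1) = 0 := by
      have := int_smul 0 (0 : L1)
      rw [zero_smul, zero_mul] at this
      exact this
    rw [g3, ← nrm_nonneg hp0] at g2
    have g4 : p = 0 := norm_eq_zero.1 g2.symm
    apply hn1 0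
    rw [zero_smul]
    exact g4
  · have hc2 : 1 - c ≠ 0 := sub_ne_zero.2 (Ne.symm hc1)
    apply hn1 ((1 - c)⁻¹ * τ)
    rw [mul_smul, ← e6, smul_smul, inv_mul_cancel₀ hc2, one_smul]

end basis

end Pool.Agent.J6H56.NB.NA
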