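import Pool.Agent.J6H56.NB.Alg
import Pool.Agent.R270.NB.C
import Pool.Agent.R270.NB.E

/-!
# Nonnegative bases of `L_1` with basis constant close to one: the atoms
-/

set_option autoImplicit false

namespace Pool.Agent.J6H56.NB
open Finset MeasureTheory Filter Topology
open scoped ENNReal

/-- the space -/
abbrev L1 : Type := Lp ℝ 1 (volume : Measure ℝ)

/-- indicator function of `[a, b)` -/
noncomputable def J (a b : ℝ) : L1 :=
  indicatorConstLp 1 (measurableSet_Ico : MeasurableSet (Set.Ico a b)) (by simp) (1 : ℝ)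

theorem J_coe (a b : ℝ) : (J a b : ℝ → ℝ) =ᵐ[volume] (Set.Ico a b).indicator fun _ => (1 : ℝ) :=
  indicatorConstLp_coeFn

theorem J_add {a b c : ℝ} (h1 : a ≤ b) (h2 : b ≤ c) : J a c = J a b + J b c := by
  apply Lp.ext
  filter_upwards [J_coe a c, J_coe a b, J_coe b c, Lp.coeFn_add (J a b) (J b c)] with x e1 e2 e3 e4
  rw [e1, e4, Pi.add_apply, e2, e3]
  by_cases hx : x ∈ Set.Ico a c
  · rw [Set.indicator_of_mem hx]
    by_cases hb : x < b
    · have m1 : x ∈ Set.Ico a b := ⟨hx.1, hb⟩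
      have m2 : x ∉ Set.Ico b c := fun h => absurd h.1 (not_le.2 hb)
      rw [Set.indicator_of_mem m1, Set.indicator_of_notMem m2, add_zero]
    · have m1 : x ∉ Set.Ico a b := fun h => absurd h.2 hb
      have m2 : x ∈ Set.Ico b c := ⟨not_lt.1 hb, hx.2⟩
      rw [Set.indicator_of_notMem m1, Set.indicator_of_mem m2, zero_add]
  · rw [Set.indicator_of_notMem hx, Set.indicator_of_notMem, Set.indicator_of_notMem, add_zero]
    · exact fun h => hx ⟨h1.trans h.1, h.2⟩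
    · exact fun h => hx ⟨h.1, h.2.trans_le h2⟩

theorem J_norm {a b : ℝ} (h : a ≤ b) : ‖J a b‖ = b - a := by
  unfold J
  rw [norm_indicatorConstLp (by norm_num) (by norm_num)]
  simp [Measure.real, Real.volume_Ico, ENNReal.toReal_ofReal, h]

theorem J_nonneg (a b : ℝ) : 0 ≤ J a b := by
  rw [← Lp.coeFn_nonneg]
  filter_upwards [J_coe a b] with x hx
  rw [hx]
  exact Set.indicator_nonneg (fun _ _ => by norm_num) _

/-- enumeration of the integers -/
noncomputable def zz (i : ℕ) : ℤ := Equiv.intEquivNat.symm i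

/-- starting point and length of the interval number `k` -/
noncomputable def AA (δ ρ : ℝ) (k : ℕ) : ℝ × ℝ :=
  if k % 4 = 0 then ((zz (k / 4) : ℝ), 1)
  else if k % 4 = 1 then ((AA δ ρ (k / 4)).1, pp δ ρ (k / 4) * (AA δ ρ (k / 4)).2)
  else if k % 4 = 2 then ((AA δ ρ (k / 4)).1 + pp δ ρ (k / 4) * (AA δ ρ (k / 4)).2,
    qq δ ρ (k / 4) * (AA δ ρ (k / 4)).2)
  else ((AA δ ρ (k / 4)).1 + ρ * (AA δ ρ (k / 4)).2, (1 - ρ) * (AA δ ρ (k / 4)).2)
termination_by k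
decreasing_by all_goals omega

section
variable {δ ρ : ℝ}

theorem AA0 (t : ℕ) : AA δ ρ (4 * t) = ((zz t : ℝ), 1) := by
  rw [AA, if_pos (by omega), show 4 * t / 4 = t by omega]

theorem AA1 (t : ℕ) : AA δ ρ (4 * t + 1) = ((AA δ ρ t).1, pp δ ρ t * (AA δ ρ t).2) := by
  rw [AA, if_neg (by omega), if_pos (by omega), show (4 * t + 1) / 4 = t by omega]

theorem AA2 (t : ℕ) : AA δ ρ (4 * t + 2) =
    ((AA δ ρ t).1 + pp δ ρ t * (AA δ ρ t).2, qq δ ρ t * (AA δ ρ t).2) := by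
  rw [AA, if_neg (by omega), if_neg (by omega), if_pos (by omega), show (4 * t + 2) / 4 = t by omega]

theorem AA3 (t : ℕ) : AA δ ρ (4 * t + 3) =
    ((AA δ ρ t).1 + ρ * (AA δ ρ t).2, (1 - ρ) * (AA δ ρ t).2) := by
  rw [AA, if_neg (by omega), if_neg (by omega), if_neg (by omega), show (4 * t + 3) / 4 = t by omega]

theorem len_pos (hδ : 0 < δ) (hρ : 0 < ρ) (hρ1 : ρ < 1) (k : ℕ) : 0 < (AA δ ρ k).2 := by
  induction k using Nat.strong_induction_on with
  | _ k ih =>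
    obtain ⟨t, i, rfl, hi⟩ : ∃ t i, k = 4 * t + i ∧ i < 4 := ⟨k / 4, k % 4, by omega, by omega⟩
    interval_cases i
    · rw [show 4 * t + 0 = 4 * t by ring, AA0]; norm_num
    · rw [AA1]; exact mul_pos (pp_pos hδ hρ t) (ih t (by omega))
    · rw [AA2]; exact mul_pos (qq_pos hδ hρ t) (ih t (by omega))
    · rw [AA3]; exact mul_pos (by linarith) (ih t (by omega))

/-- the interval number `k` -/
def II (δ ρ : ℝ) (k : ℕ) : Set ℝ := Set.Ico (AA δ ρ k).1 ((AA δ ρ k).1 + (AA δ ρ k).2)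

theorem II_sub (hδ : 0 < δ) (hρ : 0 < ρ) (hρ1 : ρ < 1) (t i : ℕ) (h0 : 0 < i) (hi : i < 4) :
    II δ ρ (4 * t + i) ⊆ II δ ρ t := by
  have hl := len_pos hδ hρ hρ1 t
  have hp := pp_pos hδ hρ t
  have hq := qq_pos hδ hρ t
  have hpq := pq_sum (ρ := ρ) hδ t
  have h1 : 0 < pp δ ρ t * (AA δ ρ t).2 := mul_pos hp hl
  have h2 : 0 < qq δ ρ t * (AA δ ρ t).2 := mul_pos hq hl
  have h3 : pp δ ρ t * (AA δ ρ t).2 + qq δ ρ t * (AA δ ρ t).2 = ρ * (AA δ ρ t).2 := by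
    rw [← add_mul, hpq]
  have h4 : 0 < (1 - ρ) * (AA δ ρ t).2 := mul_pos (by linarith) hl
  intro x hx
  unfold II at hx ⊢
  interval_cases i
  · rw [AA1] at hx
    obtain ⟨a1, a2⟩ := hx
    dsimp only at a1 a2
    constructor <;> nlinarith
  · rw [AA2] at hx
    obtain ⟨a1, a2⟩ := hx
    dsimp only at a1 a2
    constructor <;> nlinarith
  · rw [AA3] at hx
    obtain ⟨a1, a2⟩ := hx
    dsimp only at a1 a2
    constructor <;> nlinarith

theorem II_root (hδ : 0 < δ) (hρ : 0 < ρ) (hρ1 : ρ < 1) (k : ℕ) :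
    ∀ x ∈ II δ ρ k, ∃ r, 4 * r ≤ k ∧ ⌊x⌋ = zz r := by
  induction k using Nat.strong_induction_on with
  | _ k ih =>
    intro x hx
    obtain ⟨t, i, rfl, hi⟩ : ∃ t i, k = 4 * t + i ∧ i < 4 := ⟨k / 4, k % 4, by omega, by omega⟩
    by_cases h0 : i = 0
    · subst h0
      refine ⟨t, by omega, ?_⟩
      rw [show 4 * t + 0 = 4 * t by ring] at hx
      unfold II at hx
      rw [AA0] at hx
      exact Int.floor_eq_iff.2 hx
    · obtain ⟨r, hr, hx'⟩ := ih t (by omega) x (II_sub hδ hρ hρ1 t i (by omega) hi hx)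
      exact ⟨r, by omega, hx'⟩

theorem zz_inj {i j : ℕ} (h : zz i = zz j) : i = j := Equiv.intEquivNat.symm.injective h

theorem II_kids (hδ : 0 < δ) (hρ : 0 < ρ) (hρ1 : ρ < 1) (t i j : ℕ) (h0 : 0 < i) (hi : i < 4)
    (h0' : 0 < j) (hj : j < 4) (x : ℝ) (hx : x ∈ II δ ρ (4 * t + i)) (hx' : x ∈ II δ ρ (4 * t + j)) :
    i = j := by
  have hl := len_pos hδ hρ hρ1 t
  have hp := pp_pos hδ hρ t
  have hq := qq_pos hδ hρ t
  have hpq := pq_sum (ρ := ρ) hδ t
  have h3 : pp δ ρ t * (AA δ ρ t).2 + qq δ ρ t * (AA δ ρ t).2 = ρ * (AA δ ρ t).2 := by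
    rw [← add_mul, hpq]
  have h1 : 0 < pp δ ρ t * (AA δ ρ t).2 := mul_pos hp hl
  have h2 : 0 < qq δ ρ t * (AA δ ρ t).2 := mul_pos hq hl
  unfold II at hx hx'
  by_contra hne
  interval_cases i <;> interval_cases j <;> simp only [AA1, AA2, AA3, Set.mem_Ico] at hx hx' <;>
    first
    | exact hne rfl
    | (obtain ⟨a1, a2⟩ := hx; obtain ⟨b1, b2⟩ := hx'; linarith)

theorem II_disj (hδ : 0 < δ) (hρ : 0 < ρ) (hρ1 : ρ < 1) (t : ℕ) :
    ∀ k ∈ Ico t (4 * t), ∀ l ∈ Ico t (4 * t), ∀ x, x ∈ II δ ρ k → x ∈ II δ ρ l → k = l := by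
  induction t with
  | zero => intro k hk; simp at hk
  | succ t ih =>
    -- the root against the others
    have hroot : ∀ l, t + 1 ≤ l → l < 4 * t + 4 → l ≠ 4 * t → 0 < t →
        ∀ x, x ∈ II δ ρ (4 * t) → x ∈ II δ ρ l → False := by
      intro l h1 h2 h3 h0 x hx hx'
      have e1 : ⌊x⌋ = zz t := by
        unfold II at hx
        rw [AA0] at hx
        exact Int.floor_eq_iff.2 hx
      by_cases hl : l < 4 * t
      · obtain ⟨r, hr, e2⟩ := II_root hδ hρ hρ1 l x hx'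
        have := zz_inj (e1.symm.trans e2)
        omega
      · obtain ⟨i, rfl⟩ : ∃ i, l = 4 * t + i := ⟨l - 4 * t, by omega⟩
        obtain ⟨r, hr, e2⟩ := II_root hδ hρ hρ1 t x (II_sub hδ hρ hρ1 t i (by omega) (by omega) hx')
        have := zz_inj (e1.symm.trans e2)
        omega
    -- old atoms against the children
    have hold : ∀ k, t + 1 ≤ k → k < 4 * t → ∀ l, 4 * t < l → l < 4 * t + 4 →
        ∀ x, x ∈ II δ ρ k → x ∈ II δ ρ l → False := by
      intro k h1 h2 l h3 h4 x hx hx'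
      obtain ⟨i, rfl⟩ : ∃ i, l = 4 * t + i := ⟨l - 4 * t, by omega⟩
      have h5 := II_sub hδ hρ hρ1 t i (by omega) (by omega) hx'
      have := ih k (Finset.mem_Ico.2 ⟨by omega, h2⟩) t (Finset.mem_Ico.2 ⟨le_rfl, by omega⟩) x hx h5
      omega
    intro k hk l hl x hx hx'
    rw [Finset.mem_Ico] at hk hl
    by_contra hne
    rcases lt_trichotomy k (4 * t) with hk1 | hk1 | hk1
    · rcases lt_trichotomy l (4 * t) with hl1 | hl1 | hl1
      · exact hne (ih k (Finset.mem_Ico.2 ⟨by omega, hk1⟩) l (Finset.mem_Ico.2 ⟨by omega, hl1⟩) x hx hx')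
      · subst hl1
        exact hroot k (by omega) (by omega) hne (by omega) x hx' hx
      · exact hold k (by omega) hk1 l hl1 (by omega) x hx hx'
    · subst hk1
      exact hroot l (by omega) (by omega) (fun h => hne h.symm) (by omega) x hx hx'
    · rcases lt_trichotomy l (4 * t) with hl1 | hl1 | hl1
      · exact hold l (by omega) hl1 k hk1 (by omega) x hx' hx
      · subst hl1
        exact hroot k (by omega) (by omega) hne (by omega) x hx' hx
      · obtain ⟨i, rfl⟩ : ∃ i, l = 4 * t + i := ⟨l - 4 * t, by omega⟩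
        obtain ⟨j, rfl⟩ : ∃ j, k = 4 * t + j := ⟨k - 4 * t, by omega⟩
        exact hne (by rw [II_kids hδ hρ hρ1 t j i (by omega) (by omega) (by omega) (by omega) x hx hx'])

/-- the normalised atoms -/
noncomputable def ee (δ ρ : ℝ) (k : ℕ) : L1 :=
  (AA δ ρ k).2⁻¹ • J (AA δ ρ k).1 ((AA δ ρ k).1 + (AA δ ρ k).2)

theorem ee_coe (k : ℕ) : (ee δ ρ k : ℝ → ℝ) =ᵐ[volume]
    fun x => (II δ ρ k).indicator (fun _ => (AA δ ρ k).2⁻¹) x := by
  unfold ee
  filter_upwards [J_coe (AA δ ρ k).1 ((AA δ ρ k).1 + (AA δ ρ k).2),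
    Lp.coeFn_smul (AA δ ρ k).2⁻¹ (J (AA δ ρ k).1 ((AA δ ρ k).1 + (AA δ ρ k).2))] with x h1 h2
  rw [h2, Pi.smul_apply, h1]
  unfold II
  by_cases hx : x ∈ Set.Ico (AA δ ρ k).1 ((AA δ ρ k).1 + (AA δ ρ k).2)
  · rw [Set.indicator_of_mem hx, Set.indicator_of_mem hx, smul_eq_mul, mul_one]
  · rw [Set.indicator_of_notMem hx, Set.indicator_of_notMem hx, smul_zero]

theorem ee_nonneg (hδ : 0 < δ) (hρ : 0 < ρ) (hρ1 : ρ < 1) (k : ℕ) : 0 ≤ ee δ ρ k := by
  rw [← Lp.coeFn_nonneg]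
  filter_upwards [ee_coe (δ := δ) (ρ := ρ) k] with x hx
  rw [hx]
  exact Set.indicator_nonneg (fun _ _ => inv_nonneg.2 (len_pos hδ hρ hρ1 k).le) _

theorem ee_sys (hδ : 0 < δ) (hρ : 0 < ρ) (hρ1 : ρ < 1) : Sys δ ρ (ee δ ρ) where
  one k := by
    have hl := len_pos hδ hρ hρ1 k
    unfold ee
    rw [norm_smul, J_norm (by linarith), norm_inv, Real.norm_eq_abs, abs_of_pos hl, add_sub_cancel_left,
      inv_mul_cancel₀ hl.ne']
  norm_eq t x := by
    have h1 := Pool.Agent.R270.NB.CC.ae_sum (Ico t (4 * t)) (ee δ ρ)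
      (fun k x => (II δ ρ k).indicator (fun _ => (AA δ ρ k).2⁻¹) x) ee_coe x
    have h2 : ((∑ k ∈ Ico t (4 * t), x k • ee δ ρ k : L1) : ℝ → ℝ) =ᵐ[volume]
        fun y => ∑ k ∈ Ico t (4 * t), (II δ ρ k).indicator (fun _ => x k * (AA δ ρ k).2⁻¹) y := by
      filter_upwards [h1] with y hy
      rw [hy]
      refine Finset.sum_congr rfl fun k _ => ?_
      by_cases h : y ∈ II δ ρ k
      · rw [Set.indicator_of_mem h, Set.indicator_of_mem h]
      · rw [Set.indicator_of_notMem h, Set.indicator_of_notMem h, mul_zero]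
    have h3 := Pool.Agent.R270.NB.CC.norm_eq (by norm_num) _ (Ico t (4 * t)) (II δ ρ)
      (fun k => x k * (AA δ ρ k).2⁻¹) h2 (fun k _ => measurableSet_Ico) (II_disj hδ hρ hρ1 t)
      (fun k _ => by unfold II; simp)
    rw [h3]
    simp only [ENNReal.toReal_one, div_one, Real.rpow_one]
    refine Finset.sum_congr rfl fun k _ => ?_
    have hl := len_pos hδ hρ hρ1 k
    unfold II
    rw [Real.volume_Ico, add_sub_cancel_left, ENNReal.toReal_ofReal hl.le, abs_mul, abs_inv,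
      abs_of_pos hl, mul_assoc, inv_mul_cancel₀ hl.ne', mul_one]
  split t := by
    have hl := len_pos hδ hρ hρ1 t
    have hp := pp_pos hδ hρ t
    have hq := qq_pos hδ hρ t
    have hpq := pq_sum (ρ := ρ) hδ t
    have hr : 0 < 1 - ρ := by linarith
    unfold ee
    rw [AA1, AA2, AA3]
    dsimp only
    set a := (AA δ ρ t).1
    set l := (AA δ ρ t).2
    have h3 : pp δ ρ t * l + qq δ ρ t * l = ρ * l := by rw [← add_mul, hpq]
    have h1 : 0 < pp δ ρ t * l := mul_pos hp hl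
    have h2 : 0 < qq δ ρ t * l := mul_pos hq hl
    have h4 : 0 < (1 - ρ) * l := mul_pos hr hl
    have e1 : a + pp δ ρ t * l + qq δ ρ t * l = a + ρ * l := by rw [add_assoc, h3]
    have e2 : a + ρ * l + (1 - ρ) * l = a + l := by ring
    rw [e1, e2, smul_smul, smul_smul, smul_smul,
      J_add (a := a) (b := a + pp δ ρ t * l) (c := a + l) (by linarith) (by nlinarith),
      J_add (a := a + pp δ ρ t * l) (b := a + ρ * l) (c := a + l) (by linarith) (by nlinarith)]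
    have f1 : pp δ ρ t * (pp δ ρ t * l)⁻¹ = l⁻¹ := by field_simp
    have f2 : qq δ ρ t * (qq δ ρ t * l)⁻¹ = l⁻¹ := by field_simp
    have f3 : (1 - ρ) * ((1 - ρ) * l)⁻¹ = l⁻¹ := by field_simp
    rw [f1, f2, f3, smul_add, smul_add, add_assoc]

theorem gg_nonneg (hδ : 0 < δ) (hρ : 0 < ρ) (hρ1 : ρ < 1) (n : ℕ) : 0 ≤ gg δ (ee δ ρ) n := by
  have he := ee_nonneg hδ hρ hρ1
  obtain ⟨t, i, rfl, hi⟩ : ∃ t i, n = 3 * t + i ∧ i < 3 := ⟨n / 3, n % 3, by omega, by omega⟩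
  interval_cases i
  · rw [add_zero, gg0]; exact he _
  · rw [gg1]; exact add_nonneg (he _) (he _)
  · rw [gg2]
    refine add_nonneg (he _) ?_
    have h1 := he (4 * t + 1)
    rw [← Lp.coeFn_nonneg] at h1 ⊢
    filter_upwards [h1, Lp.coeFn_smul (cc δ t) (ee δ ρ (4 * t + 1))] with x a1 a2
    rw [a2, Pi.smul_apply, smul_eq_mul]
    exact mul_nonneg (by linarith [cc_gt hδ t]) a1

/-- the span -/
noncomputable def VV (δ ρ : ℝ) : Submodule ℝ L1 := Submodule.span ℝ (Set.range (gg δ (ee δ ρ)))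

theorem J_full (hδ : 0 < δ) (hρ : 0 < ρ) (hρ1 : ρ < 1) (k : ℕ) :
    J (AA δ ρ k).1 ((AA δ ρ k).1 + (AA δ ρ k).2) ∈ VV δ ρ := by
  have hl := len_pos hδ hρ hρ1 k
  have h : J (AA δ ρ k).1 ((AA δ ρ k).1 + (AA δ ρ k).2) = (AA δ ρ k).2 • ee δ ρ k := by
    unfold ee
    rw [smul_smul, mul_inv_cancel₀ hl.ne', one_smul]
  rw [h]
  exact Submodule.smul_mem _ _ (e_mem (ee_sys hδ hρ hρ1) hρ1 k)

theorem approx (hδ : 0 < δ) (hρ : 0 < ρ) (hρ2 : ρ ≤ 1 / 2) (j : ℕ) : ∀ (k : ℕ) (x : ℝ),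
    (AA δ ρ k).1 ≤ x → x ≤ (AA δ ρ k).1 + (AA δ ρ k).2 →
    ∃ w ∈ VV δ ρ, ‖J (AA δ ρ k).1 x - w‖ ≤ (1 - ρ) ^ j * (AA δ ρ k).2 := by
  have hρ1 : ρ < 1 := by linarith
  induction j with
  | zero =>
    intro k x h1 h2
    refine ⟨0, Submodule.zero_mem _, ?_⟩
    rw [sub_zero, J_norm h1, pow_zero, one_mul]
    linarith
  | succ j ih =>
    intro k x h1 h2
    have hl := len_pos hδ hρ hρ1 k
    have hp := pp_pos hδ hρ k
    have hq := qq_pos hδ hρ k
    have hpq := pq_sum (ρ := ρ) hδ k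
    have g1 := J_full hδ hρ hρ1 (4 * k + 1)
    have g2 := J_full hδ hρ hρ1 (4 * k + 2)
    have i1 := ih (4 * k + 1) x
    have i2 := ih (4 * k + 2) x
    have i3 := ih (4 * k + 3) x
    rw [AA1] at g1 i1
    rw [AA2] at g2 i2
    rw [AA3] at i3
    dsimp only at g1 g2 i1 i2 i3
    set a := (AA δ ρ k).1
    set l := (AA δ ρ k).2
    have h3 : pp δ ρ k * l + qq δ ρ k * l = ρ * l := by rw [← add_mul, hpq]
    have k1 : 0 < pp δ ρ k * l := mul_pos hp hl
    have k2 : 0 < qq δ ρ k * l := mul_pos hq hl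
    have e1 : a + pp δ ρ k * l + qq δ ρ k * l = a + ρ * l := by rw [add_assoc, h3]
    have e2 : a + ρ * l + (1 - ρ) * l = a + l := by ring
    have hσ : 0 ≤ (1 - ρ) ^ j := pow_nonneg (by linarith) _
    have b1 : (1 - ρ) ^ j * (pp δ ρ k * l) ≤ (1 - ρ) ^ (j + 1) * l := by
      rw [pow_succ, mul_assoc]
      refine mul_le_mul_of_nonneg_left ?_ hσ
      exact mul_le_mul_of_nonneg_right (by linarith) hl.le
    have b2 : (1 - ρ) ^ j * (qq δ ρ k * l) ≤ (1 - ρ) ^ (j + 1) * l := by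
      rw [pow_succ, mul_assoc]
      refine mul_le_mul_of_nonneg_left ?_ hσ
      exact mul_le_mul_of_nonneg_right (by linarith) hl.le
    have b3 : (1 - ρ) ^ j * ((1 - ρ) * l) ≤ (1 - ρ) ^ (j + 1) * l := by
      rw [pow_succ, mul_assoc]
    by_cases c1 : x ≤ a + pp δ ρ k * l
    · obtain ⟨w, hw, hw2⟩ := i1 h1 c1
      exact ⟨w, hw, hw2.trans b1⟩
    · push Not at c1
      by_cases c2 : x ≤ a + ρ * l
      · obtain ⟨w, hw, hw2⟩ := i2 c1.le (by rw [e1]; exact c2)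
        refine ⟨J a (a + pp δ ρ k * l) + w, Submodule.add_mem _ g1 hw, ?_⟩
        rw [J_add (a := a) (b := a + pp δ ρ k * l) (c := x) (by linarith) c1.le]
        refine le_trans (le_of_eq ?_) (hw2.trans b2)
        congr 1
        abel
      · push Not at c2
        obtain ⟨w, hw, hw2⟩ := i3 c2.le (by rw [e2]; exact h2)
        rw [e1] at g2
        refine ⟨J a (a + pp δ ρ k * l) + J (a + pp δ ρ k * l) (a + ρ * l) + w,
          Submodule.add_mem _ (Submodule.add_mem _ g1 g2) hw, ?_⟩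
        rw [J_add (a := a) (b := a + pp δ ρ k * l) (c := x) (by linarith) (by linarith),
          J_add (a := a + pp δ ρ k * l) (b := a + ρ * l) (c := x) (by linarith) c2.le]
        refine le_trans (le_of_eq ?_) (hw2.trans b3)
        congr 1
        abel

theorem J_mem (hδ : 0 < δ) (hρ : 0 < ρ) (hρ2 : ρ ≤ 1 / 2) (z : ℤ) (x : ℝ) (h1 : (z : ℝ) ≤ x)
    (h2 : x ≤ z + 1) : J z x ∈ (VV δ ρ).topologicalClosure := by
  have hz : zz (Equiv.intEquivNat z) = z := Equiv.symm_apply_apply _ _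
  have hA : AA δ ρ (4 * Equiv.intEquivNat z) = ((z : ℝ), 1) := by rw [AA0, hz]
  rw [← SetLike.mem_coe, Submodule.topologicalClosure_coe, Metric.mem_closure_iff]
  intro ε hε
  obtain ⟨j, hj⟩ := exists_pow_lt_of_lt_one hε (by linarith : 1 - ρ < 1)
  obtain ⟨w, hw, hw2⟩ := approx hδ hρ hρ2 j (4 * Equiv.intEquivNat z) x (by rw [hA]; exact h1)
    (by rw [hA]; exact h2)
  rw [hA, mul_one] at hw2
  exact ⟨w, hw, by rw [dist_eq_norm]; exact hw2.trans_lt hj⟩

theorem dense (hδ : 0 < δ) (hρ : 0 < ρ) (hρ2 : ρ ≤ 1 / 2) : (VV δ ρ).topologicalClosure = ⊤ := by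
  rw [eq_top_iff]
  intro f _
  have h1 := Pool.Agent.R270.NB.EAux.dense_step 1 (by norm_num) f
  rw [← SetLike.mem_coe, Submodule.topologicalClosure_coe]
  have h2 : (Submodule.span ℝ (Set.range fun q : ℕ × ℤ => Pool.Agent.R270.NB.EAux.I 1 q.1 q.2) :
      Submodule ℝ L1) ≤ (VV δ ρ).topologicalClosure := by
    rw [Submodule.span_le]
    rintro _ ⟨⟨L, m⟩, rfl⟩
    have hL : (0 : ℝ) < 2 ^ L := by positivity
    have e1 : Pool.Agent.R270.NB.EAux.I 1 L m = J ((m : ℝ) / 2 ^ L) ((m + 1 : ℝ) / 2 ^ L) := by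
      apply Lp.ext
      filter_upwards [Pool.Agent.R270.NB.EAux.I_coe 1 L m, J_coe ((m : ℝ) / 2 ^ L) ((m + 1 : ℝ) / 2 ^ L)]
        with x a1 a2
      rw [a1, a2, Pool.Agent.R270.NB.EAux.cell_eq]
    set z : ℤ := ⌊(m : ℝ) / 2 ^ L⌋ with hz
    have l1 : (z : ℝ) ≤ (m : ℝ) / 2 ^ L := Int.floor_le _
    have l2 : (m : ℝ) / 2 ^ L < z + 1 := Int.lt_floor_add_one _
    have l3 : (m + 1 : ℝ) / 2 ^ L ≤ z + 1 := by
      rw [div_lt_iff₀ hL] at l2
      rw [div_le_iff₀ hL]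
      have l4 : m < (z + 1) * 2 ^ L := by exact_mod_cast l2
      have l5 : m + 1 ≤ (z + 1) * 2 ^ L := l4
      exact_mod_cast l5
    have l6 : (m : ℝ) / 2 ^ L ≤ (m + 1 : ℝ) / 2 ^ L := by
      apply div_le_div_of_nonneg_right _ hL.le
      linarith
    have e2 : J ((m : ℝ) / 2 ^ L) ((m + 1 : ℝ) / 2 ^ L) =
        J z ((m + 1 : ℝ) / 2 ^ L) - J z ((m : ℝ) / 2 ^ L) := by
      rw [J_add l1 l6, add_sub_cancel_left]
    change Pool.Agent.R270.NB.EAux.I 1 L m ∈ (VV δ ρ).topologicalClosure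
    rw [e1, e2]
    exact Submodule.sub_mem _ (J_mem hδ hρ hρ2 z _ (l1.trans l6) l3) (J_mem hδ hρ hρ2 z _ l1 l2.le)
  have h3 : closure ((Submodule.span ℝ (Set.range fun q : ℕ × ℤ => Pool.Agent.R270.NB.EAux.I 1 q.1 q.2) :
      Submodule ℝ L1) : Set L1) ⊆ ((VV δ ρ).topologicalClosure : Set L1) :=
    closure_minimal h2 (Submodule.isClosed_topologicalClosure _)
  have h4 := h3 h1
  rw [Submodule.topologicalClosure_coe] at h4
  exact h4

end

end Pool.Agent.J6H56.NB
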